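import Pool.Agent.Y554.DP.Low
import Pool.Agent.Y554.DP.Stm3

/-!
Local lower bound for the dimension of the exceptional times of dynamical critical bond
percolation on `ℤ²` (the proof of `Pool.Agent.Y554.DP.dimL` for the rescaled process).
-/

set_option autoImplicit false

namespace Pool.Agent.Y232.DP

open H974 H12S H985T H389NS Finset MeasureTheory Pool.Agent.Y554.DP

theorem shift : S_SHIFT := by
  intro Ω _ μ _ ω h s hs
  refine ⟨fun t x => h.meas (s + t) x, ?_, ?_⟩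
  · intro F n t a h0 hmono
    have h1 := h.fdd F n (fun i => s + t i) a (by linarith)
      (fun i j hij => by have := hmono hij; simp only; linarith)
    have e : ∀ i : Fin n, (s + t i.succ) - (s + t i.castSucc) = t i.succ - t i.castSucc :=
      fun i => by ring
    simp only [e] at h1
    exact h1
  · filter_upwards [h.cadlag] with w hw x
    refine ⟨?_, ?_⟩
    · intro t ht
      obtain ⟨ε, hε, h1⟩ := (hw x).1 (s + t) (by linarith)
      exact ⟨ε, hε, fun s' h2 h3 => h1 (s + s') (by linarith) (by linarith)⟩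
    · intro t ht
      obtain ⟨ε, hε, h0, h1⟩ := (hw x).2 (s + t) (by linarith)
      refine ⟨min ε t, lt_min hε ht, min_le_right _ _, fun s1 s2 h2 h3 h4 h5 => ?_⟩
      have hm : min ε t ≤ ε := min_le_left _ _
      exact h1 (s + s1) (s + s2) (by linarith) (by linarith) (by linarith) (by linarith)

theorem low' {X : ℕ → ℕ → Set Edg → Prop} {α : ℝ} (hX : ArmFam X α) {d0 : ℝ} (hd0 : 0 < d0)
    (hd1 : d0 ≤ 1) {s : ℝ} (hs : 0 < s) (hs1 : s < 1 - 4 / 3 * α) :
    ∃ c p0 : ℝ, 0 < c ∧ 0 < p0 ∧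
    ∀ (Ω : Type) [MeasurableSpace Ω] (μ : Measure Ω) [IsProbabilityMeasure μ]
      (ω : ℝ → Ω → Edg → Bool), IsDP μ ω → ∀ a R : ℕ, 1 ≤ a → a ≤ R → ∀ m : ℕ, ∃ n : ℕ,
      p0 ≤ μ.real {w | H389R2.Dim.Good s ((1 / 2 : ℝ) ^ m) c
        (DTn X (fun t => ω (d0 * t)) n a R w)} := by
  have hα := hX.pos
  have h1s : 0 < 1 - s := by linarith
  have hr : α / (1 - s) < 3 / 4 := by
    rw [div_lt_iff₀ h1s]
    linarith
  obtain ⟨lam, hlam⟩ : ∃ lam : ℝ, lam = (α / (1 - s) + 3 / 4) / 2 := ⟨_, rfl⟩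
  have hr0 : 0 < α / (1 - s) := by positivity
  have hl1 : lam < 3 / 4 := by rw [hlam]; linarith
  have hl2 : α / (1 - s) < lam := by rw [hlam]; linarith
  have hl0 : 0 < lam := by linarith
  obtain ⟨γ, hγ⟩ : ∃ γ : ℝ, γ = α / lam := ⟨_, rfl⟩
  have hγ0 : 0 < γ := by rw [hγ]; positivity
  have hγs : s + γ < 1 := by
    have h2 : γ < 1 - s := by
      rw [hγ, div_lt_iff₀ hl0]
      rw [div_lt_iff₀ h1s] at hl2
      linarith
    linarith
  obtain ⟨C, hC, hq⟩ := qx_all hl0 hl1 X α hX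
  obtain ⟨c0, hc0, hlow⟩ := hX.lower
  obtain ⟨c, p0, hc, hp0, hmain⟩ := Pool.Agent.Y220.DP.lowa s γ (C * (2 / d0) ^ γ / c0 ^ 2) hs
    hγ0.le hγs (by positivity)
  refine ⟨c, p0, hc, hp0, ?_⟩
  intro Ω _ μ _ ω h a R ha haR m
  have ha0 : (0:ℝ) < a := by exact_mod_cast ha
  have hR0 : (0:ℝ) < R := by exact_mod_cast (ha.trans haR)
  obtain ⟨p, hp⟩ : ∃ p : ℝ, p = PQ (1 / 2) (An a R) (fun F => X a R ↑F) := ⟨_, rfl⟩
  have hp1 : c0 * ((a:ℝ) / R) ^ α ≤ p := by rw [hp]; exact hlow a R ha haR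
  have hpp : 0 < p := lt_of_lt_of_le (by positivity) hp1
  obtain ⟨δ, hδ⟩ : ∃ δ : ℝ, δ = (1 / 2 : ℝ) ^ m := ⟨_, rfl⟩
  have hδ0 : 0 < δ := by rw [hδ]; positivity
  obtain ⟨n, hn⟩ := pow_unbounded_of_one_lt ((1 + δ ^ (-s)) / p) (one_lt_two (α := ℝ))
  rw [div_lt_iff₀ hpp] at hn
  have hδs : 0 < δ ^ (-s) := Real.rpow_pos_of_pos hδ0 _
  refine ⟨n, ?_⟩
  have hN0 : (0:ℝ) < 2 ^ n := by positivity
  have key := hmain Ω μ (2 ^ n)
    (fun i => {w | X a R (opE (fun t => ω (d0 * t)) ((i:ℝ) / 2 ^ n) w)}) p δ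
    (fun i => zo_meas1 (ω := fun t => ω (d0 * t)) hX a R (fun e _ t _ => h.meas (d0 * t) e)
      (by positivity))
    (Nat.one_le_two_pow) hpp hδ0 (by push_cast; linarith) (by push_cast; linarith)
    (fun i _ => by
      have h1 := fam_one hX h (t := d0 * ((i:ℝ) / 2 ^ n)) (by positivity) a R
      rw [hp]
      exact h1)
    (by
      have hpair : ∀ i j : ℕ, i < j → j < 2 ^ n →
          μ.real ({w | X a R (opE (fun t => ω (d0 * t)) ((i:ℝ) / 2 ^ n) w)} ∩
            {w | X a R (opE (fun t => ω (d0 * t)) ((j:ℝ) / 2 ^ n) w)}) ≤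
            C * (2 / d0) ^ γ / c0 ^ 2 * p ^ 2 *
              (|(i:ℝ) - j| / ((2 ^ n : ℕ) : ℝ)) ^ (-γ) := by
        intro i j hij hj
        have hsi : (0:ℝ) ≤ d0 * ((i:ℝ) / 2 ^ n) := by positivity
        have hst : d0 * ((i:ℝ) / 2 ^ n) ≤ d0 * ((j:ℝ) / 2 ^ n) := by
          have : (i:ℝ) ≤ j := by exact_mod_cast hij.le
          gcongr
        have h0 := fam_two hX h hsi hst a R
        have h0' : μ.real ({w | X a R (opE (fun t => ω (d0 * t)) ((i:ℝ) / 2 ^ n) w)} ∩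
            {w | X a R (opE (fun t => ω (d0 * t)) ((j:ℝ) / 2 ^ n) w)}) =
            qX X (Real.exp (-(d0 * ((j:ℝ) / 2 ^ n) - d0 * ((i:ℝ) / 2 ^ n)))) a R := h0
        rw [h0']
        have hij' : (i:ℝ) < j := by exact_mod_cast hij
        have hj' : (j:ℝ) < 2 ^ n := by exact_mod_cast hj
        have hi0 : (0:ℝ) ≤ i := Nat.cast_nonneg _
        obtain ⟨d, hd⟩ : ∃ d : ℝ, d = ((j:ℝ) - i) / 2 ^ n := ⟨_, rfl⟩
        have hd0' : 0 < d := by rw [hd]; exact div_pos (by linarith) hN0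
        have hd1' : d ≤ 1 := by rw [hd, div_le_one hN0]; linarith
        have e1 : d0 * ((j:ℝ) / 2 ^ n) - d0 * ((i:ℝ) / 2 ^ n) = d0 * d := by rw [hd]; ring
        have e2 : |(i:ℝ) - j| / ((2 ^ n : ℕ) : ℝ) = d := by
          rw [abs_sub_comm, abs_of_pos (by linarith), hd]
          push_cast
          rfl
        rw [e1, e2]
        have hdd0 : 0 < d0 * d := mul_pos hd0 hd0'
        have hdd1 : d0 * d ≤ 1 := mul_le_one₀ hd1 hd0'.le hd1'
        have h1 := F1c_exp hdd0.le hdd1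
        have hx1 : Real.exp (-(d0 * d)) < 1 := by rw [Real.exp_lt_one_iff]; linarith
        have h2 := hq a R (Real.exp (-(d0 * d))) ha haR (Real.exp_pos _).le hx1
        refine h2.trans ?_
        rw [← hγ]
        have h3 : (1 - Real.exp (-(d0 * d))) ^ (-γ) ≤ (d0 * d / 2) ^ (-γ) :=
          Real.rpow_le_rpow_of_nonpos (by positivity) h1 (by linarith)
        have h4 : (d0 * d / 2) ^ (-γ) = (2 / d0) ^ γ * d ^ (-γ) := by
          have e3 : d0 * d / 2 = (2 / d0)⁻¹ * d := by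
            rw [inv_div]
            ring
          rw [e3, Real.mul_rpow (by positivity) hd0'.le, Real.inv_rpow (by positivity),
            Real.rpow_neg (by positivity : (0:ℝ) ≤ 2 / d0), inv_inv]
        have h5 : ((a:ℝ) / R) ^ (2 * α) ≤ p ^ 2 / c0 ^ 2 := by
          rw [le_div_iff₀ (by positivity)]
          have e : ((a:ℝ) / R) ^ (2 * α) = (((a:ℝ) / R) ^ α) ^ 2 := by
            rw [← Real.rpow_natCast, ← Real.rpow_mul (by positivity)]
            congr 1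
            push_cast
            ring
          rw [e, ← mul_pow, mul_comm]
          exact pow_le_pow_left₀ (by positivity) hp1 2
        rw [h4] at h3
        calc C * (1 - Real.exp (-(d0 * d))) ^ (-γ) * ((a:ℝ) / R) ^ (2 * α)
            ≤ C * ((2 / d0) ^ γ * d ^ (-γ)) * (p ^ 2 / c0 ^ 2) := by gcongr
          _ = C * (2 / d0) ^ γ / c0 ^ 2 * p ^ 2 * d ^ (-γ) := by ring
      intro i j hi hj hij
      rcases lt_or_gt_of_ne hij with h1 | h1
      · exact hpair i j h1 hj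
      · rw [Set.inter_comm, abs_sub_comm]
        exact hpair j i h1 hi)
  rw [hδ] at key
  refine key.trans (le_of_eq ?_)
  congr 1
  ext w
  have e3 : {t : ℝ | ∃ i : ℕ, i < 2 ^ n ∧ t = (i:ℝ) / ((2 ^ n : ℕ) : ℝ) ∧
      w ∈ (fun i : ℕ => {w | X a R (opE (fun t => ω (d0 * t)) ((i:ℝ) / 2 ^ n) w)}) i} =
      DTn X (fun t => ω (d0 * t)) n a R w := by
    ext t
    simp only [DTn, Set.mem_setOf_eq]
    push_cast
    constructor
    · rintro ⟨i, h1, h2, h3⟩
      exact ⟨i, h1, h2, by rw [h2]; exact h3⟩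
    · rintro ⟨i, h1, h2, h3⟩
      exact ⟨i, h1, h2, by rw [← h2]; exact h3⟩
  simp only [Set.mem_setOf_eq]
  rw [← e3]
  rfl

theorem zo' {X : ℕ → ℕ → Set Edg → Prop} {α : ℝ} (hX : ArmFam X α) {d0 : ℝ} (hd0 : 0 < d0)
    (s' c' : ℝ) (Ω : Type) [MeasurableSpace Ω] (μ : Measure Ω) [IsProbabilityMeasure μ]
    (ω : ℝ → Ω → Edg → Bool) (h : IsDP μ ω) :
    MeasurableSet (⋃ a : ℕ, ⋂ R : ℕ, ⋂ m : ℕ,
      Y554.DP.GG X (fun t => ω (d0 * t)) s' c' (a + 1) (a + 1 + R) m) ∧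
    (μ (⋃ a : ℕ, ⋂ R : ℕ, ⋂ m : ℕ,
      Y554.DP.GG X (fun t => ω (d0 * t)) s' c' (a + 1) (a + 1 + R) m) = 0 ∨
    μ (⋃ a : ℕ, ⋂ R : ℕ, ⋂ m : ℕ,
      Y554.DP.GG X (fun t => ω (d0 * t)) s' c' (a + 1) (a + 1 + R) m) = 1) := by
  classical
  refine ⟨?_, ?_⟩
  · refine MeasurableSet.iUnion fun a => MeasurableSet.iInter fun R => MeasurableSet.iInter
      fun m => MeasurableSet.iUnion fun n => ?_
    exact zo_meas (ω := fun t => ω (d0 * t)) hX _ _ (fun e _ t _ => h.meas (d0 * t) e) _ _ _ _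
  set s : Edg → MeasurableSpace Ω := fun e =>
    MeasurableSpace.comap (fun (w : Ω) (t : {t : ℝ // 0 ≤ t}) => ω t w e) MeasurableSpace.pi with hs
  have hle : ∀ e, s e ≤ ‹MeasurableSpace Ω› := fun e =>
    (measurable_pi_iff.2 fun t : {t : ℝ // 0 ≤ t} => h.meas t e).comap_le
  have hind : ProbabilityTheory.iIndep s μ := dp_indep1 h
  refine ProbabilityTheory.measure_zero_or_one_of_measurableSet_limsup (s := s)
    (f := Filter.cofinite) (p := Set.Finite) (ns := fun u : Finset Edg => (↑u : Set Edg)) hle hind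
    (fun t ht => ht.compl_mem_cofinite) ?_ (fun u => u.finite_toSet)
    (fun e => ⟨{e}, by simp⟩) ?_
  · intro u v
    exact ⟨u ∪ v, by simp, by simp⟩
  · rw [Filter.limsup_eq_iInf_iSup]
    rw [MeasurableSpace.measurableSet_iInf]
    intro u
    rw [MeasurableSpace.measurableSet_iInf]
    intro hu
    have hfin : (uᶜ).Finite := by
      simpa using hu
    obtain ⟨m, hm⟩ := F2x_box hfin.toFinset
    have hE : (⋃ a : ℕ, ⋂ R : ℕ, ⋂ l : ℕ,
        Y554.DP.GG X (fun t => ω (d0 * t)) s' c' (a + 1) (a + 1 + R) l) =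
        ⋃ a : ℕ, ⋂ R : ℕ, ⋂ l : ℕ,
          Y554.DP.GG X (fun t => ω (d0 * t)) s' c' (m + a + 1) (m + a + 1 + R) l := by
      apply Set.Subset.antisymm
      · intro w hw
        rw [Set.mem_iUnion] at hw ⊢
        obtain ⟨a, ha⟩ := hw
        refine ⟨a, ?_⟩
        rw [Set.mem_iInter] at ha ⊢
        intro R
        rw [Set.mem_iInter]
        intro l
        have h1 := ha (m + R)
        rw [Set.mem_iInter] at h1
        have h2 := h1 l
        rw [show a + 1 + (m + R) = m + a + 1 + R by ring] at h2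
        exact GG_inner hX (by omega) (by omega) h2
      · intro w hw
        rw [Set.mem_iUnion] at hw ⊢
        obtain ⟨a, ha⟩ := hw
        exact ⟨m + a, ha⟩
    rw [hE]
    refine @MeasurableSet.iUnion Ω ℕ (⨆ i ∈ u, s i) _ _ fun a => ?_
    refine @MeasurableSet.iInter Ω ℕ (⨆ i ∈ u, s i) _ _ fun R => ?_
    refine @MeasurableSet.iInter Ω ℕ (⨆ i ∈ u, s i) _ _ fun l => ?_
    refine @MeasurableSet.iUnion Ω ℕ (⨆ i ∈ u, s i) _ _ fun n => ?_
    refine @zo_meas Ω (⨆ i ∈ u, s i) X α hX (fun t => ω (d0 * t)) _ _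
      (fun e he t ht => ?_) _ _ _ _
    have heu : e ∈ u := by
      by_contra hcon
      have h1 : e ∈ hfin.toFinset := by
        rw [Set.Finite.mem_toFinset]
        exact hcon
      have h2 := hm e h1
      rw [INDI_memAn] at he
      exact he.2 (H389NS.E4_boxE (by omega) h2)
    have h3 : s e ≤ ⨆ i ∈ u, s i := le_iSup₂ (f := fun i (_ : i ∈ u) => s i) e heu
    refine Measurable.mono ?_ h3 le_rfl
    have h4 : @Measurable Ω ({t : ℝ // 0 ≤ t} → Bool) (s e) MeasurableSpace.pi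
        (fun (w : Ω) (t : {t : ℝ // 0 ≤ t}) => ω t w e) := comap_measurable _
    exact (measurable_pi_apply (⟨d0 * t, mul_nonneg hd0.le ht⟩ : {t : ℝ // 0 ≤ t})).comp h4

/-- The rescaled paths are regular. -/
theorem cad_resc {Ω : Type*} {ω : ℝ → Ω → Edg → Bool} {w : Ω} {d0 : ℝ} (hd0 : 0 < d0)
    (hw : ∀ x : Edg,
      (∀ t : ℝ, 0 ≤ t → ∃ ε > 0, ∀ s : ℝ, t ≤ s → s < t + ε → ω s w x = ω t w x) ∧
      (∀ t : ℝ, 0 < t → ∃ ε > 0, ε ≤ t ∧ ∀ s s' : ℝ,
        t - ε < s → s < t → t - ε < s' → s' < t → ω s w x = ω s' w x)) (x : Edg) :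
      (∀ t : ℝ, 0 ≤ t → ∃ ε > 0, ∀ s : ℝ, t ≤ s → s < t + ε →
        (fun t => ω (d0 * t)) s w x = (fun t => ω (d0 * t)) t w x) ∧
      (∀ t : ℝ, 0 < t → ∃ ε > 0, ε ≤ t ∧ ∀ s s' : ℝ,
        t - ε < s → s < t → t - ε < s' → s' < t →
          (fun t => ω (d0 * t)) s w x = (fun t => ω (d0 * t)) s' w x) := by
  refine ⟨?_, ?_⟩
  · intro t ht
    obtain ⟨ε, hε, h1⟩ := (hw x).1 (d0 * t) (by positivity)
    refine ⟨ε / d0, by positivity, fun s' h2 h3 => ?_⟩
    refine h1 (d0 * s') (by gcongr) ?_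
    have h4 : d0 * s' < d0 * (t + ε / d0) := by gcongr
    have h5 : d0 * (t + ε / d0) = d0 * t + ε := by field_simp
    linarith
  · intro t ht
    obtain ⟨ε, hε, h0, h1⟩ := (hw x).2 (d0 * t) (by positivity)
    have h5 : d0 * (t - ε / d0) = d0 * t - ε := by field_simp
    refine ⟨ε / d0, by positivity, ?_, fun s1 s2 h2 h3 h4 h6 => ?_⟩
    · rw [div_le_iff₀ hd0]
      linarith
    · refine h1 (d0 * s1) (d0 * s2) ?_ (by gcongr) ?_ (by gcongr)
      · rw [← h5]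
        gcongr
      · rw [← h5]
        gcongr

theorem opL_resc {Ω : Type*} {ω : ℝ → Ω → Edg → Bool} {w : Ω} {d0 : ℝ} (hd0 : 0 < d0) (t : ℝ) :
    opL (fun t => ω (d0 * t)) t w = opL ω (d0 * t) w := by
  ext e
  simp only [opL, Set.mem_setOf_eq]
  constructor
  · rintro ⟨ε, hε, h⟩
    refine ⟨d0 * ε, by positivity, fun s h1 h2 => ?_⟩
    have h3 := h (s / d0) (by rw [lt_div_iff₀ hd0]; linarith) (by rw [div_lt_iff₀ hd0]; linarith)
    rwa [mul_div_cancel₀ _ hd0.ne'] at h3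
  · rintro ⟨ε, hε, h⟩
    refine ⟨ε / d0, by positivity, fun s h1 h2 => ?_⟩
    have h5 : d0 * (t - ε / d0) = d0 * t - ε := by field_simp
    refine h (d0 * s) ?_ (by gcongr)
    rw [← h5]
    gcongr

/-- The exceptional times of the rescaled process. -/
theorem dim_resc {X : ℕ → ℕ → Set Edg → Prop} {α : ℝ} (hX : ArmFam X α) {d0 : ℝ} (hd0 : 0 < d0)
    (hd1 : d0 ≤ 1) (Ω : Type) [MeasurableSpace Ω] (μ : Measure Ω) [IsProbabilityMeasure μ]
    (ω : ℝ → Ω → Edg → Bool) (h : IsDP μ ω) :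
    ∀ᵐ w ∂μ, ENNReal.ofReal (1 - 4 / 3 * α) ≤ dimH (ET X (fun t => ω (d0 * t)) w) := by
  have hα := hX.pos
  have hα2 := hX.small
  -- one exponent
  have main : ∀ s : ℝ, 0 < s → s < 1 - 4 / 3 * α →
      ∀ᵐ w ∂μ, ENNReal.ofReal s ≤ dimH (ET X (fun t => ω (d0 * t)) w) := by
    intro s hs hs1
    obtain ⟨c, p0, hc, hp0, hlow⟩ := low' hX hd0 hd1 hs hs1
    obtain ⟨hmeas, h01⟩ := zo' hX hd0 s c Ω μ ω h
    have hG : ∀ R m : ℕ, MeasurableSet (Y554.DP.GG X (fun t => ω (d0 * t)) s c 1 (1 + R) m) := fun R m =>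
      MeasurableSet.iUnion fun n =>
        zo_meas (ω := fun t => ω (d0 * t)) hX _ _ (fun e _ t _ => h.meas (d0 * t) e) _ _ _ _
    have hge : ∀ k : ℕ, p0 ≤ μ.real (Y554.DP.GG X (fun t => ω (d0 * t)) s c 1 (1 + k) k) := by
      intro k
      obtain ⟨n, hn⟩ := hlow Ω μ ω h 1 (1 + k) le_rfl (by omega) k
      exact hn.trans (measureReal_mono (Set.subset_iUnion (fun n : ℕ =>
        {w | H389R2.Dim.Good s ((1 / 2 : ℝ) ^ k) c
          (DTn X (fun t => ω (d0 * t)) n 1 (1 + k) w)}) n))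
    have hanti : Antitone (fun k : ℕ => Y554.DP.GG X (fun t => ω (d0 * t)) s c 1 (1 + k) k) :=
      fun k k' hk => GG_outer hX (by omega) (by omega) hk
    have hpos : p0 ≤ μ.real (⋂ k : ℕ, Y554.DP.GG X (fun t => ω (d0 * t)) s c 1 (1 + k) k) := by
      have h3 := tendsto_measure_iInter_atTop (μ := μ)
        (s := fun k : ℕ => Y554.DP.GG X (fun t => ω (d0 * t)) s c 1 (1 + k) k)
        (fun k => (hG k k).nullMeasurableSet) hanti ⟨0, measure_ne_top _ _⟩
      have h4 := (ENNReal.tendsto_toReal (measure_ne_top μ _)).comp h3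
      exact ge_of_tendsto' h4 hge
    have hsub : (⋂ k : ℕ, Y554.DP.GG X (fun t => ω (d0 * t)) s c 1 (1 + k) k) ⊆
        ⋃ a : ℕ, ⋂ R : ℕ, ⋂ m : ℕ, Y554.DP.GG X (fun t => ω (d0 * t)) s c (a + 1) (a + 1 + R) m := by
      intro w hw
      rw [Set.mem_iUnion]
      refine ⟨0, ?_⟩
      rw [Set.mem_iInter] at hw
      refine Set.mem_iInter.2 fun R => Set.mem_iInter.2 fun m => ?_
      have h1 := hw (max R m)
      exact GG_outer hX (by omega) (by omega) (le_max_right R m) h1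
    have hone : μ (⋃ a : ℕ, ⋂ R : ℕ, ⋂ m : ℕ,
        Y554.DP.GG X (fun t => ω (d0 * t)) s c (a + 1) (a + 1 + R) m) = 1 := by
      rcases h01 with h0 | h1
      · exfalso
        have h2 : μ (⋂ k : ℕ, Y554.DP.GG X (fun t => ω (d0 * t)) s c 1 (1 + k) k) = 0 :=
          measure_mono_null hsub h0
        rw [Measure.real, h2] at hpos
        simp at hpos
        linarith
      · exact h1
    have h4 : ∀ᵐ w ∂μ, w ∈ (⋃ a : ℕ, ⋂ R : ℕ, ⋂ m : ℕ,
        Y554.DP.GG X (fun t => ω (d0 * t)) s c (a + 1) (a + 1 + R) m) := by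
      have hmeas' : MeasurableSet
          (⋃ a : ℕ, ⋂ R : ℕ, ⋂ m : ℕ,
            Y554.DP.GG X (fun t => ω (d0 * t)) s c (a + 1) (a + 1 + R) m) := hmeas
      rw [← prob_compl_eq_zero_iff hmeas'] at hone
      exact hone
    have h5 : ∀ᵐ w ∂μ, ∀ (e : Edg) (a : ℕ), ∀ τ : ℝ, 0 < τ → τ ≤ 1 →
        ¬ (e ∈ opL ω τ w ↔ e ∈ opE ω τ w) → ∃ R : ℕ, ¬ X (a + 1) (a + 1 + R) (opL ω τ w) := by
      rw [ae_all_iff]
      intro e
      rw [ae_all_iff]
      intro a
      exact nj X α hX Ω μ ω h e (a + 1) (by omega)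
    filter_upwards [h.cadlag, h4, h5] with w hw1 hw2 hw3
    rw [Set.mem_iUnion] at hw2
    obtain ⟨a, ha⟩ := hw2
    rw [Set.mem_iInter] at ha
    have hD : Antitone (fun R : ℕ => DT X (fun t => ω (d0 * t)) (a + 1) (a + 1 + R) w) := by
      rintro R R' hR t ⟨n, i, hi, ht, hX'⟩
      exact ⟨n, i, hi, ht, hX.outer (by omega) (by omega) hX'⟩
    have hD01 : ∀ R : ℕ, DT X (fun t => ω (d0 * t)) (a + 1) (a + 1 + R) w ⊆ Set.Icc 0 1 := by
      rintro R t ⟨n, i, hi, ht, hX'⟩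
      rw [ht]
      refine ⟨by positivity, ?_⟩
      rw [div_le_one (by positivity)]
      exact_mod_cast hi.le
    have hdim := good_nested hs hc hD hD01 (by
      intro R m
      have h6 := ha R
      rw [Set.mem_iInter] at h6
      have h7 := h6 m
      unfold Pool.Agent.Y554.DP.GG at h7
      rw [Set.mem_iUnion] at h7
      obtain ⟨n, hn⟩ := h7
      refine H389R2.Dim.Good.mono hn ?_
      rintro t ⟨i, hi, ht, hX'⟩
      exact ⟨n, i, hi, ht, hX'⟩)
    refine hdim.trans (dimH_mono ?_)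
    intro t ht
    have h8 := cmp X α hX Ω (fun t => ω (d0 * t)) w (cad_resc hd0 hw1) a
      (fun e τ hτ0 hτ1 hne => by
        rw [opL_resc hd0] at hne ⊢
        exact hw3 e a (d0 * τ) (by positivity) (mul_le_one₀ hd1 hτ0.le hτ1) hne)
      t (Set.mem_iInter.1 ht)
    exact ⟨h8.1, h8.2.1, a, h8.2.2⟩
  -- all exponents
  obtain ⟨S, hS⟩ : ∃ S : ℝ, S = 1 - 4 / 3 * α := ⟨_, rfl⟩
  have hS0 : 0 < S := by rw [hS]; linarith
  have hall : ∀ᵐ w ∂μ, ∀ k : ℕ, ENNReal.ofReal (S * (1 - 1 / ((k:ℝ) + 2))) ≤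
      dimH (ET X (fun t => ω (d0 * t)) w) := by
    rw [ae_all_iff]
    intro k
    have h1 : 1 / ((k:ℝ) + 2) < 1 := by
      rw [div_lt_one (by positivity)]
      have : (0:ℝ) ≤ k := Nat.cast_nonneg _
      linarith
    have h2 : 0 < 1 / ((k:ℝ) + 2) := by positivity
    refine main _ (mul_pos hS0 (by linarith)) ?_
    rw [← hS]
    nlinarith
  filter_upwards [hall] with w hw
  rw [← hS]
  have hlim : Filter.Tendsto (fun k : ℕ => ENNReal.ofReal (S * (1 - 1 / ((k:ℝ) + 2))))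
      Filter.atTop (nhds (ENNReal.ofReal S)) := by
    apply ENNReal.tendsto_ofReal
    have h1 : Filter.Tendsto (fun k : ℕ => 1 / ((k:ℝ) + 2)) Filter.atTop (nhds 0) := by
      have h2 : Filter.Tendsto (fun k : ℕ => (k:ℝ) + 2) Filter.atTop Filter.atTop :=
        Filter.tendsto_atTop_add_const_right _ _ tendsto_natCast_atTop_atTop
      exact Filter.Tendsto.div_atTop tendsto_const_nhds h2
    have h3 := (tendsto_const_nhds (x := (1:ℝ))).sub h1 |>.const_mul S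
    simpa using h3
  exact le_of_tendsto' hlim hw

theorem dimLoc : S_DIMLOC := by
  intro X α hX Ω _ μ _ ω h s d0 hs hd0 hd1
  have h1 := dim_resc hX hd0 hd1 Ω μ (fun t => ω (s + t)) (shift Ω μ ω h s hs)
  filter_upwards [h1] with w hw
  refine hw.trans ?_
  have hL : LipschitzWith ((1 / d0).toNNReal) (fun x : ℝ => (x - s) / d0) := by
    refine LipschitzWith.of_dist_le_mul fun x y => ?_
    rw [Real.dist_eq, Real.dist_eq, Real.coe_toNNReal _ (by positivity), ← sub_div, abs_div,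
      abs_of_pos hd0]
    have : x - s - (y - s) = x - y := by ring
    rw [this]
    apply le_of_eq
    ring
  refine le_trans (dimH_mono ?_) (hL.dimH_image_le (EI X ω s d0 w))
  rintro t ⟨ht0, ht1, a, ha⟩
  refine ⟨s + d0 * t, ⟨?_, ?_, a, ha⟩, ?_⟩
  · have : 0 ≤ d0 * t := by positivity
    linarith
  · have : d0 * t ≤ d0 * 1 := by gcongr
    linarith
  · show (s + d0 * t - s) / d0 = t
    rw [add_sub_cancel_left, mul_div_cancel_left₀ _ hd0.ne']

end Pool.Agent.Y232.DP
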